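import Pool.Agent.K7.H44.LP.Last

/-!
# A common vertex of all longest paths of connected `{P₅, double star}`-free graphs

Let `G` be a connected graph without an induced path on five vertices and without an induced double
star (two adjacent centres, each with two leaves). Then some vertex lies on all longest paths of `G`.

Proof. Choose a longest path `Q` and a component `C` of `G - Q` so that the closed neighbourhood
`N[C]` is as large as possible. Let `a₁, …, aₛ` be the vertices of `Q` with neighbours in `C`. They
divide `Q` into `s + 1` segments; let `a = aᵢ` have neighbours in as many segments as possible.
Then `a` has at least `s + 1` neighbours on `Q`, and if `aⱼ` is not adjacent to `a` then `a` has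
neighbours in the two segments next to `aⱼ`. Let `P` be a longest path which misses `a` and let `C'`
be the component of `G - P` with `a ∈ C'`.

* If `a` is adjacent to all of `C`, or `P` misses `C`, then `|N[C']| > |N[C]|`, which is not possible.
* Otherwise `P` meets `C` and `a` has a neighbour and a non-neighbour in `C`. As `G` has no induced
  path on five vertices, every vertex of `C` not adjacent to `a` has a neighbour `x ∈ C ∩ N(a)`.
  Take for it the first vertex of `P` in `C`. Then `x` is on `P`, the neighbours `u`, `w` of `x` on
  `P` are in `C`, they are not adjacent to `a`, and they are not adjacent to each other (otherwise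
  there is a longer path). With two neighbours `s`, `t` of `a` in different segments, which are not
  adjacent to each other, this gives an induced double star with centres `a` and `x`.
-/

set_option autoImplicit false

namespace Pool.Agent.Results.MP_feab4e_co.DoubleStar

open Pool.Agent.K7.H44.LP (doubleStar IsLongest)

/-- **Theorem.** Let `G` be a connected graph without an induced path on five vertices and without an
induced double star `S(2,2)`. Then all longest paths of `G` have a common vertex. -/
theorem result {V : Type*} [Fintype V] (G : SimpleGraph V) (hG : G.Connected)
    (h5 : IsEmpty (SimpleGraph.pathGraph 5 ↪g G)) (h6 : IsEmpty (doubleStar ↪g G)) :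
    ∃ a : V, ∀ (u v : V) (P : G.Walk u v), IsLongest G P → a ∈ P.support := by
  obtain ⟨a, ha⟩ := Pool.Agent.K7.H44.LP.common hG (Pool.Agent.K7.H44.LP.noP5 h5)
    (fun a x s t u w h => by
      obtain ⟨f⟩ := Pool.Agent.K7.H44.LP.dstar_emb h
      exact h6.elim f)
  exact ⟨a, fun u v P hP => ha _ hP.longest⟩

end Pool.Agent.Results.MP_feab4e_co.DoubleStar
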