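import Pool.Agent.K7.H44.LP.Emb

/-!
# Longest paths of connected `P₅`-free graphs

Let `G` be a connected graph without an induced path on five vertices.

1. For every longest path `P` and every vertex `w` which is not on `P` there is a vertex `a` on `P`
   which has more neighbours on `P` than `w`. So the vertices with the maximal number of neighbours
   on `P` are on `P`.
2. If a vertex `x` of maximum degree of `G` is not on every longest path, then `x` is on the long leg
   of an induced fork (the fork is the claw with one edge subdivided; the long leg consists of the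
   vertex of degree two and the leaf adjacent to it).
3. In particular, if `G` has no induced fork, then all vertices of maximum degree are on all longest
   paths.

Proof. Let `P` be a longest path, `C` a component of the rest, `a₁, …, aₛ` the vertices of `P` with
neighbours in `C`. They divide `P` into `s + 1` segments, which are not empty. The first vertices of
the segments are independent, the last vertices too. Choose `a = aᵢ` with neighbours in as many
segments as possible. If `aⱼ` is not adjacent to `a`, then `a` has neighbours in the two segments next
to `aⱼ`: otherwise some segment `S` has neighbours of `a` but none of `aⱼ`, and there is an induced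
path on five vertices consisting of a vertex of `S`, `a`, a common neighbour in `C`, `aⱼ` and a vertex
next to `aⱼ`. Counting gives `s + 1` neighbours of `a` on `P`.
-/

set_option autoImplicit false

namespace Pool.Agent.Results.MP_feab4e_co.MaximumDegree

open Pool.Agent.K7.H44.LP (fork IsLongest)

open Classical in
/-- **Theorem.** Let `G` be a connected graph without an induced path on five vertices.
(1) If `P` is a longest path and `w` is not on `P`, some vertex of `P` has more neighbours on `P` than
`w`.
(2) If a vertex `x` of maximum degree is missed by some longest path, then `x` is one of the vertices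
`3`, `4` of an induced fork (`0` adjacent to `1`, `2`, `3`, and `3` adjacent to `4`).
(3) If `G` has no induced fork, every vertex of maximum degree is on every longest path. -/
theorem result {V : Type*} [Fintype V] (G : SimpleGraph V) (hG : G.Connected)
    (h5 : IsEmpty (SimpleGraph.pathGraph 5 ↪g G)) :
    (∀ (u v : V) (P : G.Walk u v), IsLongest G P → ∀ w, w ∉ P.support → ∃ a ∈ P.support,
      {y | y ∈ P.support ∧ G.Adj w y}.ncard < {y | y ∈ P.support ∧ G.Adj a y}.ncard) ∧
    (∀ x : V, (∀ y, G.degree y ≤ G.degree x) →
      (∃ (u v : V) (P : G.Walk u v), IsLongest G P ∧ x ∉ P.support) →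
      ∃ f : fork ↪g G, x = f 3 ∨ x = f 4) ∧
    (IsEmpty (fork ↪g G) → ∀ x : V, (∀ y, G.degree y ≤ G.degree x) →
      ∀ (u v : V) (P : G.Walk u v), IsLongest G P → x ∈ P.support) := by
  have h5' := Pool.Agent.K7.H44.LP.noP5 h5
  have key : ∀ x : V, (∀ y, G.degree y ≤ G.degree x) →
      (∃ (u v : V) (P : G.Walk u v), IsLongest G P ∧ x ∉ P.support) →
      ∃ f : fork ↪g G, x = f 3 ∨ x = f 4 := by
    rintro x hx ⟨u, v, P, hP, hxP⟩
    obtain ⟨a, s, t, u', v', hf, h⟩ := Pool.Agent.K7.H44.LP.leg hG h5' hP.longest hxP hx
    obtain ⟨f, h1, h2⟩ := Pool.Agent.K7.H44.LP.fork_emb hf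
    refine ⟨f, ?_⟩
    rcases h with h | h
    · exact Or.inl (by rw [h1, h])
    · exact Or.inr (by rw [h2, h])
  refine ⟨?_, key, ?_⟩
  · intro u v P hP w hw
    obtain ⟨a, ha, -, h1⟩ := Pool.Agent.K7.H44.LP.more hG h5' hP.longest hw
    have h2 := Pool.Agent.K7.H44.LP.onP_le (G := G) hP.longest.2.1 w
      (Pool.Agent.K7.H44.LP.self_comp hw)
    refine ⟨a, ha, ?_⟩
    have e : ∀ z : V, {y | y ∈ P.support ∧ G.Adj z y}.ncard =
        (Pool.Agent.K7.H44.LP.onP G P.support z).card := by
      intro z
      rw [← Set.ncard_coe_finset]
      congr 1
      ext y
      simp [Pool.Agent.K7.H44.LP.onP]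
    rw [e, e]
    omega
  · intro hf x hx u v P hP
    by_contra hcon
    obtain ⟨f, -⟩ := key x hx ⟨u, v, P, hP, hcon⟩
    exact hf.elim f

end Pool.Agent.Results.MP_feab4e_co.MaximumDegree
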