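import Pool.Agent.K7.H44.LP.Last2

/-!
# A common vertex of all longest paths of connected `P₅`-free graphs without a graph on 7 vertices

Let `F` be the graph with the vertices `0, …, 6` in which `0`, `1`, `2` are adjacent to `3`, `4`, `5`,
`3` is adjacent to `4`, and `5` to `6` (the complete bipartite graph `K(3,3)` with an edge in one side
and a pendant vertex at the third vertex of this side). Let `G` be a connected graph without an induced
path on five vertices and without an induced `F`. Then some vertex lies on all longest paths of `G`.

The induced subgraphs of `F` include `K₃`, `C₄`, `K(1,4)`, `K(2,3)`, `K(1,1,3)` and the banner.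

Proof. For a longest path `Q` and a component `C` of `G - Q` let `Φ(C)` be the largest `n` such that
from each vertex of `N(C)` one can go to the first vertex of a path in `C` with at least `n` vertices.
Choose `(Q, C)` so that `Φ(C)` is maximal, and then `|N[C]|`. Let `N(C)` divide `Q` into segments. Among
the vertices of `N(C)` with neighbours in the first segment `S₀` let `a` have neighbours in as many
segments as possible. Let `P` be a longest path which misses `a`, and `C'` the component of `G - P`
with `a ∈ C'`.

* If `P` misses `C`, then `C ⊆ C'`, `Φ(C') ≥ Φ(C)` and `|N[C']| > |N[C]|`.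
* If `P` meets `C` and `a` has a non-neighbour in `C`, then `a` is adjacent to all vertices of `S₀`,
  `S₀` is in `C'` and `Φ(C') ≥ |S₀| + 1 > Φ(C)`.
* If `P` meets `C` and `a` is adjacent to all of `C`, then `|N[C']| > |N[C]|`, and `Φ(C') ≥ Φ(C)` if `C`
  is a single vertex. If `C` has an edge, count the vertices of `N(C)` which follow on `P` a vertex of
  `N(C')`: each of them is next to two segments of `Q`, and in each segment is a vertex of `N(C')` which
  is followed on `P` by such a vertex, or there is an induced `F`. There are more segments than
  vertices, a contradiction.
-/

set_option autoImplicit false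

namespace Pool.Agent.Results.MP_feab4e_co.SevenVertices

open Pool.Agent.K7.H44.LP (kite IsLongest)

/-- **Theorem.** Let `G` be a connected graph without an induced path on five vertices and without an
induced copy of the graph `kite` on seven vertices. Then all longest paths of `G` have a common
vertex. -/
theorem result {V : Type*} [Fintype V] (G : SimpleGraph V) (hG : G.Connected)
    (h5 : IsEmpty (SimpleGraph.pathGraph 5 ↪g G)) (h7 : IsEmpty (kite ↪g G)) :
    ∃ a : V, ∀ (u v : V) (P : G.Walk u v), IsLongest G P → a ∈ P.support := by
  obtain ⟨a, ha⟩ := Pool.Agent.K7.H44.LP.common2 hG (Pool.Agent.K7.H44.LP.noP5 h5)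
    (fun a b d c c' q g h => by
      obtain ⟨f⟩ := Pool.Agent.K7.H44.LP.kite_emb h
      exact h7.elim f)
  exact ⟨a, fun u v P hP => ha _ hP.longest⟩

end Pool.Agent.Results.MP_feab4e_co.SevenVertices
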