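import Pool.Agent.K7.H44.LP.Last3

/-!
# Two vertices which meet all longest paths of a connected `P₅`-free graph

Let `G` be a connected graph without an induced path on five vertices. Then there are two vertices,
equal or adjacent, such that each longest path of `G` contains at least one of them.

Proof. For a longest path `Q` and a component `C` of `G - Q` let `Φ(C)` be the largest `n` such that
from each vertex of `N(C)` one can go to the first vertex of a path in `C` with at least `n` vertices.
Choose `(Q, C)` so that `Φ(C)` is maximal, and then `|N[C]|`. Let `N(C)` divide `Q` into segments. Among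
the vertices of `N(C)` with neighbours in the first segment `S₀` let `a` have neighbours in as many
segments as possible, and let `c` be a neighbour of `a` in `C`. Let `P` be a longest path which misses
`a`, and `C'` the component of `G - P` with `a ∈ C'`.

* If `P` misses `C`, then `C ⊆ C'`, `Φ(C') ≥ Φ(C)` and `|N[C']| > |N[C]|`, a contradiction.
* If `P` meets `C` and `a` has a non-neighbour in `C`, then `a` is adjacent to all vertices of `S₀`,
  `S₀` is in `C'` and `Φ(C') ≥ |S₀| + 1 > Φ(C)`, a contradiction.
* If `P` meets `C` and `a` is adjacent to all of `C`, suppose that `P` misses a vertex of `C`. Consider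
  the vertices of `N(C)` which follow on `P` a vertex of `N(C')`. Each of them is next to two segments
  of `Q`, and in each of these segments is a vertex of `N(C')` which is followed on `P` by such a
  vertex. There are more segments than vertices, a contradiction. So `P` contains `C` and `c ∈ P`.
-/

set_option autoImplicit false

namespace Pool.Agent.Results.MP_feab4e_co.TwoVertices

open Pool.Agent.K7.H44.LP (IsLongest)

/-- **Theorem.** Let `G` be a connected graph without an induced path on five vertices. Then there are
two vertices `a`, `c`, equal or adjacent, such that each longest path contains `a` or `c`. -/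
theorem result {V : Type*} [Fintype V] (G : SimpleGraph V) (hG : G.Connected)
    (h5 : IsEmpty (SimpleGraph.pathGraph 5 ↪g G)) :
    ∃ a c : V, (a = c ∨ G.Adj a c) ∧
      ∀ (u v : V) (P : G.Walk u v), IsLongest G P → a ∈ P.support ∨ c ∈ P.support := by
  obtain ⟨a, c, hac, h⟩ := Pool.Agent.K7.H44.LP.two hG (Pool.Agent.K7.H44.LP.noP5 h5)
  exact ⟨a, c, hac, fun u v P hP => h _ hP.longest⟩

end Pool.Agent.Results.MP_feab4e_co.TwoVertices
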